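import Pool.Agent.helper34.MO.SpecA

/-! Project MO (MP_0631c5_co), row CHI: elementary facts on `chi`. -/

set_option autoImplicit false

open Complex Finset

namespace Pool.Agent.MO

theorem CHI : CHI_stmt := by
  refine ⟨fun x hx => ?_, fun x y hx hy => ?_, fun x y => ?_, fun t h0 h1 => ?_⟩
  · unfold chi
    rw [min_self, max_self, div_self (ne_of_gt hx), Real.sqrt_one, Real.arctan_one]
    ring
  · unfold chi
    have hmin : 0 < min x y := lt_min hx hy
    have hmax : 0 < max x y := lt_of_lt_of_le hx (le_max_left x y)
    have hr1 : min x y / max x y ≤ 1 := by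
      rw [div_le_one hmax]
      exact le_trans (min_le_left x y) (le_max_left x y)
    have hs0 : 0 ≤ Real.sqrt (min x y / max x y) := Real.sqrt_nonneg _
    have hs1 : Real.sqrt (min x y / max x y) ≤ 1 := by
      rw [← Real.sqrt_one]
      exact Real.sqrt_le_sqrt hr1
    have ha0 : 0 ≤ Real.arctan (Real.sqrt (min x y / max x y)) := by
      rw [← Real.arctan_zero]
      exact Real.arctan_strictMono.monotone hs0
    have ha1 : Real.arctan (Real.sqrt (min x y / max x y)) ≤ Real.pi / 4 := by
      rw [← Real.arctan_one]
      exact Real.arctan_strictMono.monotone hs1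
    constructor
    · linarith
    · linarith
  · unfold chi
    rw [min_comm, max_comm]
  · unfold chi
    rw [min_eq_right h1.le, max_eq_left h1.le, div_one]

end Pool.Agent.MO
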